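import Pool.Agent.Q127.Tok.Lower

/-!
# The online token colouring value of the 5-cycle with one chord (MP_f00a0c_co, Q1)

The definitions are in `Pool.Agent.Q127.Tok.Defs`.

The complement of the graph is the path `a - b - c - d - e` (`a, b, c, d, e = 0, 3, 1, 4, 2`), and
a colour can be used on at most two vertices, which must be consecutive on this path. At width
`4 m` Algorithm maintains linear inequalities (`AInv`) between the numbers of tokens on the five
vertices and the numbers `p`, `q` of colours common to `b`, `c` and to `c`, `d`, and it always uses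
as many colours common to `a`, `b` and to `d`, `e` as possible. Spoiler first places `2 m` tokens on
each of `b` and `c`, and then either `2 m` tokens on each of `a` and `d`, or `2 m` tokens on `e`.
-/

set_option autoImplicit false

open Filter Topology

namespace Pool.Agent.Results.MP_f00a0c_co.HouseValue

/-- For every width `w`, the number `f(w, C)` of colours for the 5-cycle `C` with one chord is
attained by some strategy of Algorithm and lies between `5 ⌊w / 4⌋` and `5 ⌈w / 4⌉`; hence
`f(w, C) / w` converges to `5 / 4`. -/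
theorem result :
    (∀ w : ℕ, ∃ σ : Q127.Tok.Strategy (Fin 5),
      Q127.Tok.Guarantees Q127.Tok.C5plus w (Q127.Tok.f w Q127.Tok.C5plus) σ) ∧
    (∀ w : ℕ, 5 * (w / 4) ≤ Q127.Tok.f w Q127.Tok.C5plus ∧
      Q127.Tok.f w Q127.Tok.C5plus ≤ 5 * ((w + 3) / 4)) ∧
    Tendsto (fun w : ℕ => (Q127.Tok.f w Q127.Tok.C5plus : ℝ) / (w : ℝ)) atTop (𝓝 (5 / 4)) := by
  have hb : ∀ w : ℕ, 5 * (w / 4) ≤ Q127.Tok.f w Q127.Tok.C5plus ∧
      Q127.Tok.f w Q127.Tok.C5plus ≤ 5 * ((w + 3) / 4) := fun w =>
    ⟨Q127.Tok.f_lower w (w / 4) (by omega), Q127.Tok.f_upper w ((w + 3) / 4) (by omega)⟩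
  refine ⟨fun w => ?_, hb, ?_⟩
  · have hne : {N | ∃ σ : Q127.Tok.Strategy (Fin 5),
        Q127.Tok.Guarantees Q127.Tok.C5plus w N σ}.Nonempty :=
      ⟨5 * w, Q127.Tok.strat w, (Q127.Tok.strat_guarantees w).anti (by omega)⟩
    exact Nat.sInf_mem hne
  · have hlow : Tendsto (fun w : ℕ => (5 / 4 : ℝ) - 15 / 4 / (w : ℝ)) atTop (𝓝 (5 / 4)) := by
      have := tendsto_const_div_atTop_nhds_zero_nat (15 / 4 : ℝ)
      simpa using (tendsto_const_nhds (x := (5 / 4 : ℝ))).sub this
    have hup : Tendsto (fun w : ℕ => (5 / 4 : ℝ) + 15 / 4 / (w : ℝ)) atTop (𝓝 (5 / 4)) := by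
      have := tendsto_const_div_atTop_nhds_zero_nat (15 / 4 : ℝ)
      simpa using (tendsto_const_nhds (x := (5 / 4 : ℝ))).add this
    refine tendsto_of_tendsto_of_tendsto_of_le_of_le' hlow hup ?_ ?_
    · filter_upwards [eventually_gt_atTop 0] with w hw
      have hw' : (0 : ℝ) < w := by exact_mod_cast hw
      rw [le_div_iff₀ hw', sub_mul, div_mul_cancel₀ _ hw'.ne']
      have h1 : 5 * w ≤ 4 * Q127.Tok.f w Q127.Tok.C5plus + 15 := by
        have := (hb w).1
        omega
      have h2 : (5 : ℝ) * w ≤ 4 * (Q127.Tok.f w Q127.Tok.C5plus : ℝ) + 15 := by exact_mod_cast h1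
      linarith
    · filter_upwards [eventually_gt_atTop 0] with w hw
      have hw' : (0 : ℝ) < w := by exact_mod_cast hw
      rw [div_le_iff₀ hw', add_mul, div_mul_cancel₀ _ hw'.ne']
      have h1 : 4 * Q127.Tok.f w Q127.Tok.C5plus ≤ 5 * w + 15 := by
        have := (hb w).2
        omega
      have h2 : 4 * (Q127.Tok.f w Q127.Tok.C5plus : ℝ) ≤ 5 * w + 15 := by exact_mod_cast h1
      linarith

end Pool.Agent.Results.MP_f00a0c_co.HouseValue
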